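import Pool.Agent.H85.LF.Step
import Pool.Agent.H85.LB.GeoG
import Pool.Agent.H85.LB.Barr
import Pool.Agent.H48.NE.Mxw
import Pool.Agent.H48.PI.Shift

/-!
# Module Low1: pointwise lower bound from closeness to a Maxwellian in `L¹(dv)` at every `x`

`f(t,x,·)` is close in `L¹` to `M ≥ 2 μ₀` on `‖v‖ ≤ 4` for all `t` of a time interval of length two, so the set `{f(t,x,·) ≥ μ₀}` fills the ball `‖v‖ ≤ 4` up to small
measure (`lw_meas`); `geo_gain`: the gain of this set is `≥ c₃` on `‖v‖ ≤ 2`; the barrier `β t (1 - |v|²/4)` (`lower_barrier`, `low_Q_gain`) gives `f ≥ 3β/8` on `|v| ≤ 1` for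
`t ≥ 1/2`, and `cyl_iter` spreads this to the ball of radius `R` for `t ≥ 1`. No other information on `f` is used, the constants do not depend on the time.
-/

set_option autoImplicit false

open MeasureTheory Set Filter Topology Pool.Agent.H25.Kin Pool.Agent.H82.BK Pool.Agent.H82.CM Pool.Agent.H85.LB Pool.Agent.H15.AV
open Pool.Agent.H85.LF

namespace Pool.Agent.H85.LW

variable {d : ℕ} {γ s C Ca cb : ℝ} {b : ℝ → ℝ}

private lemma lw_norm_le {z : Vec d} {r : ℝ} (hr : 0 ≤ r) (h : nsq z ≤ r ^ 2) : ‖z‖ ≤ r := by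
  refine (pi_norm_le_iff_of_nonneg hr).2 fun i => ?_
  rw [Real.norm_eq_abs]
  refine abs_le_of_sq_le_sq ?_ hr
  refine le_trans ?_ h
  unfold nsq
  exact Finset.single_le_sum (f := fun i => z i ^ 2) (fun i _ => sq_nonneg (z i)) (Finset.mem_univ i)

private lemma lw_meas {F M : Vec d → ℝ} (hF : Integrable F) (hM : Integrable M) {μ₀ μ : ℝ} (hμ₀ : 0 < μ₀)
    (hMl : ∀ v, ‖v‖ ≤ 4 → 2 * μ₀ ≤ M v) (h : ∫ v, |F v - M v| ≤ μ₀ * μ) :
    volume (Metric.closedBall (0 : Vec d) 4 \ {w | μ₀ ≤ F w}) ≤ ENNReal.ofReal μ := by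
  set E : Set (Vec d) := Metric.closedBall (0 : Vec d) 4 \ {w | μ₀ ≤ F w} with hE
  have hi : Integrable fun v => |F v - M v| := (hF.sub hM).abs
  have h1 : E ⊆ {v | ENNReal.ofReal μ₀ ≤ ENNReal.ofReal |F v - M v|} := by
    intro v hv
    have h2 : ‖v‖ ≤ 4 := by simpa using hv.1
    have h3 : F v < μ₀ := not_le.1 hv.2
    have h4 := hMl v h2
    have h5 : μ₀ ≤ |F v - M v| := by
      rw [abs_sub_comm]
      exact le_trans (by linarith) (le_abs_self _)
    exact ENNReal.ofReal_le_ofReal h5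
  have h6 : ENNReal.ofReal μ₀ * volume {v | ENNReal.ofReal μ₀ ≤ ENNReal.ofReal |F v - M v|} ≤
      ∫⁻ v, ENNReal.ofReal |F v - M v| :=
    mul_meas_ge_le_lintegral₀ hi.aestronglyMeasurable.aemeasurable.ennreal_ofReal _
  have h7 : ∫⁻ v, ENNReal.ofReal |F v - M v| = ENNReal.ofReal (∫ v, |F v - M v|) :=
    (ofReal_integral_eq_lintegral_ofReal hi (Eventually.of_forall fun v => abs_nonneg _)).symm
  have h8 : ENNReal.ofReal μ₀ * volume E ≤ ENNReal.ofReal μ₀ * ENNReal.ofReal μ := by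
    calc ENNReal.ofReal μ₀ * volume E ≤ _ := mul_le_mul_right (measure_mono h1) _
      _ ≤ _ := h6
      _ = ENNReal.ofReal (∫ v, |F v - M v|) := h7
      _ ≤ ENNReal.ofReal (μ₀ * μ) := ENNReal.ofReal_le_ofReal h
      _ = _ := ENNReal.ofReal_mul hμ₀.le
  exact (ENNReal.mul_le_mul_iff_right (ENNReal.ofReal_pos.2 hμ₀).ne' ENNReal.ofReal_ne_top).1 h8

/-- general form: on `[0,2)` -/
theorem low_l1G (HL : HypL d γ s b C Ca cb) (U : ℕ → ℝ) {M : Vec d → ℝ} (hM : Integrable M) {μ₀ : ℝ} (hμ₀ : 0 < μ₀)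
    (hMl : ∀ v, ‖v‖ ≤ 4 → 2 * μ₀ ≤ M v) (R : ℝ) : ∃ c > 0, ∃ ε > 0, ∀ f : ℝ → Vec d → Vec d → ℝ,
      IsBoltzmannSol γ b 2 f → UB U 2 f → (∀ t ∈ Ico (0 : ℝ) 2, ∀ x, ∫ v, |f t x v - M v| ≤ ε) →
        ∀ t ∈ Ico (1 : ℝ) 2, ∀ x v, len v ≤ R → c ≤ f t x v := by
  have H := HL.H
  obtain ⟨K, hK0, hK⟩ := low_Q_gain H
  obtain ⟨μ, c₃, hμ, hc₃, hg⟩ := geo_gain HL
  obtain ⟨κ, hκ0, hκ⟩ := conv_le (d := d) U H.h0 H.h2 2
  set β : ℝ := min (μ₀ / 8) (c₃ * μ₀ ^ 2 / (4 * (1 + 2 * K * κ))) with hβ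
  have hβ0 : 0 < β := by positivity
  have hβ1 : 8 * β ≤ μ₀ := by
    have : β ≤ μ₀ / 8 := min_le_left _ _
    linarith
  have hβ2 : β * (1 + 2 * K * κ) < c₃ * (μ₀ ^ 2 / 2) := by
    have h3 : β ≤ c₃ * μ₀ ^ 2 / (4 * (1 + 2 * K * κ)) := min_le_right _ _
    have h4 : 0 < 1 + 2 * K * κ := by positivity
    calc β * (1 + 2 * K * κ) ≤ c₃ * μ₀ ^ 2 / (4 * (1 + 2 * K * κ)) * (1 + 2 * K * κ) :=
          mul_le_mul_of_nonneg_right h3 h4.le
      _ = c₃ * μ₀ ^ 2 / 4 := by field_simp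
      _ < c₃ * (μ₀ ^ 2 / 2) := by
          have : 0 < c₃ * μ₀ ^ 2 := by positivity
          linarith
  obtain ⟨n, hn⟩ : ∃ n : ℕ, |R| ≤ (51 / 50 : ℝ) ^ n * 1 := by
    obtain ⟨n, hn⟩ := pow_unbounded_of_one_lt |R| (show (1 : ℝ) < 51 / 50 by norm_num)
    exact ⟨n, by linarith⟩
  obtain ⟨h', ρ', a', hh'0, hh'h, hρ', ha', hit⟩ := cyl_iter HL U (V := 0) le_rfl n (R := 1) (ρ := 1)
    (a := 3 * β / 8) (h := 1 / 2) one_pos one_pos (by positivity) (by norm_num)
  refine ⟨a', ha', μ₀ * μ, by positivity, fun f hf hU hL t ht x v hv => ?_⟩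
  -- the lower bound on the unit ball
  have hunit : ∀ t ∈ Ico (1 / 2 : ℝ) 2, ∀ x v, nsq v ≤ 1 → 3 * β / 8 ≤ f t x v := by
    intro t ht x v hv
    have hbar := lower_barrier (show IsClassicalSol 2 _ f from hf) (t₀ := 0) (t₁ := t) (V := 2) le_rfl
      (by linarith [ht.1]) ht.2 (B := fun r _ u => β * r * (1 - nsq u / 4))
      (by
        unfold unc
        have h1 : Continuous fun q : ℝ × Vec d × Vec d => nsq q.2.2 := continuous_sq.comp (by fun_prop)
        refine Continuous.continuousOn ?_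
        fun_prop)
      (fun r _ y u i => rfl)
      (by
        intro r hr y u hu
        have h3 : ‖u‖ ^ 2 ≤ nsq u := by
          rw [← len_sq]
          exact pow_le_pow_left₀ (norm_nonneg u) (norm_le_len u) 2
        have h4 : (2 : ℝ) ^ 2 ≤ ‖u‖ ^ 2 := pow_le_pow_left₀ (by norm_num) hu 2
        exact mul_nonpos_of_nonneg_of_nonpos (mul_nonneg hβ0.le hr.1) (by linarith))
      (by
        intro y u
        show β * 0 * (1 - nsq u / 4) ≤ f 0 y u
        rw [mul_zero, zero_mul]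
        exact hf.nonneg 0 ⟨le_rfl, by norm_num⟩ y u)
      (by
        intro r hr y u _ hfB hmin
        have hrT : r ∈ Ioo (0 : ℝ) 2 := ⟨hr.1, lt_of_le_of_lt hr.2 ht.2⟩
        have hrI : r ∈ Ico (0 : ℝ) 2 := ⟨hr.1.le, hrT.2⟩
        have hn := sol_nice (show IsClassicalSol 2 _ f from hf) hrT y
        have hnn : ∀ w, 0 ≤ f r y w := fun w => hf.nonneg r hrI y w
        have hfu := hnn u
        have hpos : 0 < 1 - nsq u / 4 := by
          by_contra h5
          have h6 : β * r * (1 - nsq u / 4) ≤ 0 :=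
            mul_nonpos_of_nonneg_of_nonpos (mul_nonneg hβ0.le hr.1.le) (not_lt.1 h5)
          linarith
        have hun : ‖u‖ ≤ 2 := lw_norm_le (by norm_num) (by linarith)
        have hBle : β * r * (1 - nsq u / 4) ≤ 2 * β := by
          have h7 : 1 - nsq u / 4 ≤ 1 := by linarith [sq_nonneg' u]
          have h8 : r * (1 - nsq u / 4) ≤ 2 * 1 := mul_le_mul hrT.2.le h7 hpos.le (by norm_num)
          calc β * r * (1 - nsq u / 4) = β * (r * (1 - nsq u / 4)) := by ring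
            _ ≤ β * (2 * 1) := mul_le_mul_of_nonneg_left h8 hβ0.le
            _ = 2 * β := by ring
        have hsec : ∀ k, 2 * f r y u - 2 * (2 * β) * nsq k ≤ f r y (u + k) + f r y (u - k) := by
          intro k
          have q6 := hmin (u + k)
          have q7 := hmin (u - k)
          have q8 := nsq_par u k
          have q9 : 0 ≤ nsq k := sq_nonneg' k
          have q10 : β * r * (nsq (u + k) + nsq (u - k)) = β * r * (2 * nsq u + 2 * nsq k) := by
            congr 1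
            have q11 : nsq (u + k) + nsq (u - k) = 2 * nsq u + 2 * nsq k := by
              unfold nsq
              rw [← Finset.sum_add_distrib, Finset.mul_sum, Finset.mul_sum, ← Finset.sum_add_distrib]
              refine Finset.sum_congr rfl fun i _ => ?_
              simp only [Pi.add_apply, Pi.sub_apply]
              ring
            exact q11
          have q12 : β * r * nsq k ≤ β * 2 * nsq k :=
            mul_le_mul_of_nonneg_right (mul_le_mul_of_nonneg_left hrT.2.le hβ0.le) q9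
          have q13 : 0 ≤ β * nsq k := mul_nonneg hβ0.le q9
          nlinarith
        have hmeas : Measurable (f r y) := hn.cont.measurable
        have hA : MeasurableSet {w | μ₀ ≤ f r y w} := measurableSet_le measurable_const hmeas
        have hint : Integrable (f r y) := hn.rd.integrable hn.cont.aestronglyMeasurable
        have hvol := lw_meas hint hM hμ₀ hMl (hL r hrI y)
        have hgain := hg _ hA hvol u hun
        have q14 := hK (f r y) hn hnn u (2 * β) μ₀ c₃ (by positivity) (by linarith) hc₃.le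
          (hfB.le.trans hBle) hsec _ hA (fun w hw => hw) hgain
        have q15 := hκ (f r y) hn hnn (fun N w => hU N r hrI y w) u hun
        have q16 : K * (2 * β) * (∫ z, f r y z * len (u - z) ^ (γ + 2 * s)) ≤ K * (2 * β) * κ :=
          mul_le_mul_of_nonneg_left q15 (by positivity)
        refine ⟨β * (1 - nsq u / 4), ?_, ?_⟩
        · have h3 := ((hasDerivAt_id r).const_mul β).mul_const (1 - nsq u / 4)
          rwa [mul_one] at h3
        · have q17 : β * (1 - nsq u / 4) ≤ β := by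
            have := mul_nonneg hβ0.le (sq_nonneg' u)
            nlinarith
          have q18 : β * (1 + 2 * K * κ) = β + K * (2 * β) * κ := by ring
          show _ < boltzQ γ b (f r y) u
          linarith) t ⟨by linarith [ht.1], le_rfl⟩ x v
    refine le_trans ?_ hbar
    show 3 * β / 8 ≤ β * t * (1 - nsq v / 4)
    have h3 : (3 : ℝ) / 4 ≤ 1 - nsq v / 4 := by linarith
    have h4 : (1 / 2 : ℝ) * (3 / 4) ≤ t * (1 - nsq v / 4) := mul_le_mul ht.1 h3 (by norm_num) (by linarith [ht.1])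
    calc 3 * β / 8 = β * ((1 / 2) * (3 / 4)) := by ring
      _ ≤ β * (t * (1 - nsq v / 4)) := mul_le_mul_of_nonneg_left h4 hβ0.le
      _ = _ := by ring
  have hc : Cyl f (t - 1 / 2) t x 0 1 1 (3 * β / 8) := by
    intro t' ht' y w _ hw
    exact hunit t' ⟨by linarith [ht.1, ht'.1], lt_of_le_of_lt ht'.2 ht.2⟩ y w (by simpa using hw)
  have h3 := hit 2 f hf hU t (by linarith [ht.1]) ht.2 x 0 (by unfold nsq; simp) hc t ⟨by linarith, le_rfl⟩ x v
    (by rw [sub_self]; unfold nsq; simp; positivity)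
  refine h3 ?_
  rw [sub_zero, ← len_sq]
  exact pow_le_pow_left₀ (len_nonneg v) (hv.trans ((le_abs_self R).trans hn)) 2

/-- lower bound on every ball of velocities from closeness to a Maxwellian in `L¹(dv)` -/
theorem low_l1 (hd : 2 ≤ d) (hs : s ∈ Ioo (0 : ℝ) 1) (h0 : 0 ≤ γ) (h2 : γ + 2 * s ≤ 2) (hb : IsKernel d s b)
    (Cl : ℕ → ℝ) {a k : ℝ} (ha : 0 < a) (hk : 0 < k) (u : Vec d) (R : ℝ) : ∃ c > 0, ∃ ε > 0,
      ∀ (T : ℝ) (f : ℝ → Vec d → Vec d → ℝ), IsBoltzmannSol γ b T f → ∀ t₀ : ℝ, 1 ≤ t₀ → t₀ + 1 < T →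
        (∀ t ∈ Icc (t₀ - 1) (t₀ + 1), ∀ (N : ℕ) (x v : Vec d), (1 + ‖v‖) ^ N * f t x v ≤ Cl N) →
          (∀ t ∈ Icc (t₀ - 1) (t₀ + 1), ∀ x, ∫ v, |f t x v - Pool.Agent.H48.NE.mx a k u v| ≤ ε) →
            ∀ t ∈ Icc t₀ (t₀ + 1), ∀ x v, len v ≤ R → c ≤ f t x v := by
  obtain ⟨C, Ca, cb, HL⟩ := exists_hypL hd hs.1 hs.2 (by linarith [hs.1]) h2 hb
  have hN := Pool.Agent.H48.NE.mx_nice ha hk u
  have hi : Integrable (Pool.Agent.H48.NE.mx a k u) := hN.rd.integrable hN.cont.aestronglyMeasurable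
  obtain ⟨m, hm, hml⟩ := Pool.Agent.H48.NE.mx_low ha hk u (Real.sqrt (d * 16))
  have hml' : ∀ v : Vec d, ‖v‖ ≤ 4 → 2 * (m / 2) ≤ Pool.Agent.H48.NE.mx a k u v := by
    intro v hv
    have h3 : len v ≤ Real.sqrt (d * 16) := by
      unfold len
      refine Real.sqrt_le_sqrt ?_
      refine (sq_le v).trans ?_
      refine mul_le_mul_of_nonneg_left ?_ (Nat.cast_nonneg d)
      have := pow_le_pow_left₀ (norm_nonneg v) hv 2
      linarith
    have := hml v h3
    linarith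
  obtain ⟨c, hc, ε, hε, h⟩ := low_l1G HL Cl hi (μ₀ := m / 2) (by positivity) hml' R
  refine ⟨c, hc, ε, hε, fun T f hf t₀ ht₀ ht₀T hU hL t ht x v hv => ?_⟩
  have hg : IsBoltzmannSol γ b 2 (fun t => f ((t₀ - 1) + t)) := by
    have h3 := Pool.Agent.H48.PI.boltz_shift hf (t₀ := t₀ - 1) (by linarith)
    exact Pool.Agent.H48.PI.sol_restrict (show IsClassicalSol (T - (t₀ - 1)) _ _ from h3) (by linarith)
  have hmain : ∀ t ∈ Ico t₀ (t₀ + 1), c ≤ f t x v := by
    intro t ht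
    have h4 := h _ hg (fun N r hr y w => hU _ ⟨by linarith [hr.1], by linarith [hr.2]⟩ N y w)
      (fun r hr y => hL _ ⟨by linarith [hr.1], by linarith [hr.2]⟩ y) (t - (t₀ - 1))
      ⟨by linarith [ht.1], by linarith [ht.2]⟩ x v hv
    simpa using h4
  rcases lt_or_eq_of_le ht.2 with h5 | h5
  · exact hmain t ⟨ht.1, h5⟩
  · have hcont : ContinuousWithinAt (fun r => f r x v) (Ico t₀ (t₀ + 1)) (t₀ + 1) := by
      have h6 : ContinuousOn (fun r => f r x v) (Ico 0 T) := by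
        have h7 : ContinuousOn (unc f) (Ico 0 T ×ˢ univ) := hf.isCont
        exact h7.comp (f := fun r : ℝ => (r, x, v)) (by fun_prop) fun r hr => ⟨hr, mem_univ _⟩
      exact (h6 (t₀ + 1) ⟨by linarith, ht₀T⟩).mono fun r hr => ⟨by linarith [hr.1], by linarith [hr.2]⟩
    rw [h5]
    have h8 : t₀ + 1 ∈ closure (Ico t₀ (t₀ + 1)) := by
      rw [closure_Ico (by linarith)]
      exact ⟨by linarith, le_rfl⟩
    exact ContinuousWithinAt.closure_le (f := fun _ : ℝ => c) (g := fun r => f r x v) h8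
      continuousWithinAt_const hcont hmain

end Pool.Agent.H85.LW
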